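import Pool.Agent.Work.MP_a6e60d_ag.KL.Lat
import Pool.Agent.Work.MP_f714fc_ag.Abs.H1

/-!
# Vanishing of cohomology from restriction to curves

An abelian category with twists by the Picard lattice and the exact sequences of the ten curves:
the higher cohomology of all line bundles reached by a path of curves vanishes.
-/

open CategoryTheory CategoryTheory.Abelian CategoryTheory.Limits

attribute [-instance] CategoryTheory.catToReflQuiver

universe w v u

namespace Orl.KL

open Fdim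

variable {C : Type u} [Category.{v} C] [Abelian C] [HasExt.{w} C]

/-- all groups Ext vanish -/
def Van (A B : C) : Prop := ∀ p : ℕ, Subsingleton (Ext.{w} A B p)

/-- the higher groups Ext vanish -/
def Pos (A B : C) : Prop := ∀ p : ℕ, 1 ≤ p → Subsingleton (Ext.{w} A B p)

theorem Van.pos {A B : C} (h : Van.{w} A B) : Pos.{w} A B := fun p _ => h p

theorem ext_iso {A A' B B' : C} (i : A ≅ A') (j : B ≅ B') {p : ℕ}
    (h : Subsingleton (Ext.{w} A B p)) : Subsingleton (Ext.{w} A' B' p) := by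
  refine ⟨fun e e' => ?_⟩
  have key : ∀ e : Ext.{w} A' B' p, e = 0 := fun e => by
    have h1 : (Ext.mk₀ i.hom).comp (e.comp (Ext.mk₀ j.inv) (add_zero p)) (zero_add p) =
      (0 : Ext.{w} A B p) := Subsingleton.elim _ _
    have h2 := congrArg (fun x : Ext.{w} A B p =>
      (Ext.mk₀ i.inv).comp (x.comp (Ext.mk₀ j.hom) (add_zero p)) (zero_add p)) h1
    simpa [← Ext.comp_assoc_of_second_deg_zero, Ext.mk₀_comp_mk₀] using h2
  rw [key e, key e']

theorem Van.iso {A A' B B' : C} (i : A ≅ A') (j : B ≅ B') (h : Van.{w} A B) : Van.{w} A' B' :=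
  fun p => ext_iso i j (h p)

theorem Pos.iso {A A' B B' : C} (i : A ≅ A') (j : B ≅ B') (h : Pos.{w} A B) : Pos.{w} A' B' :=
  fun p hp => ext_iso i j (h p hp)

section ses

variable {S : ShortComplex C} (hS : S.ShortExact) (A : C)

include hS

theorem ext_mid {p : ℕ} (h1 : Subsingleton (Ext.{w} A S.X₁ p))
    (h3 : Subsingleton (Ext.{w} A S.X₃ p)) : Subsingleton (Ext.{w} A S.X₂ p) := by
  refine subsingleton_of_forall_eq 0 fun x => ?_
  obtain ⟨y, rfl⟩ := Ext.covariant_sequence_exact₂ A hS x (Subsingleton.elim _ _)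
  rw [Subsingleton.elim y 0, Ext.zero_comp]

theorem ext_left {p : ℕ} (h2 : Subsingleton (Ext.{w} A S.X₂ (p + 1)))
    (h3 : Subsingleton (Ext.{w} A S.X₃ p)) : Subsingleton (Ext.{w} A S.X₁ (p + 1)) := by
  refine subsingleton_of_forall_eq 0 fun x => ?_
  obtain ⟨y, rfl⟩ := Ext.covariant_sequence_exact₁ A hS x (Subsingleton.elim _ _) rfl
  rw [Subsingleton.elim y 0, Ext.zero_comp]

theorem ext_left_zero (h2 : Subsingleton (Ext.{w} A S.X₂ 0)) :
    Subsingleton (Ext.{w} A S.X₁ 0) := by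
  have := hS.mono_f
  exact (Ext.postcomp_mk₀_injective_of_mono A S.f).subsingleton

theorem pos_mid (h1 : Pos.{w} A S.X₁) (h3 : Pos.{w} A S.X₃) : Pos.{w} A S.X₂ :=
  fun p hp => ext_mid hS A (h1 p hp) (h3 p hp)

theorem van_mid (h1 : Van.{w} A S.X₁) (h3 : Van.{w} A S.X₃) : Van.{w} A S.X₂ :=
  fun p => ext_mid hS A (h1 p) (h3 p)

theorem van_left (h2 : Van.{w} A S.X₂) (h3 : Van.{w} A S.X₃) : Van.{w} A S.X₁
  | 0 => ext_left_zero hS A (h2 0)
  | p + 1 => ext_left hS A (h2 (p + 1)) (h3 p)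

end ses

variable [HasShift C Pic]

/-- The exact sequences of the ten curves. -/
structure KBase (C : Type u) [Category.{v} C] [Abelian C] [HasExt.{w} C] [HasShift C Pic] where
  /-- the structure sheaf -/
  O : C
  /-- H^p(O) = 0 for p at least 1 -/
  hO : ∀ p : ℕ, 1 ≤ p → Subsingleton (Ext.{w} O O p)
  /-- the sequence 0 -> O(a - c) -> O(a) -> O_c(a) -> 0 -/
  S : Cv → Pic → ShortComplex C
  hS : ∀ c a, (S c a).ShortExact
  e₁ : ∀ c a, (S c a).X₁ ≅ O⟦a - c.cl⟧
  e₂ : ∀ c a, (S c a).X₂ ≅ O⟦a⟧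
  /-- the higher cohomology of line bundles of degree at least -1 on the curves vanishes -/
  h1 : ∀ (c : Cv) (a : Pic), -1 ≤ c.deg a → Pos.{w} O (S c a).X₃
  /-- the cohomology of line bundles of degree -1 on the curves vanishes -/
  h0 : ∀ (c : Cv) (a : Pic), c.deg a = -1 → Van.{w} O (S c a).X₃
  /-- H^p(O(-c)) = 0 -/
  hc : ∀ c : Cv, Van.{w} O (O⟦-c.cl⟧)

namespace KBase

variable (B : KBase.{w} C)

theorem add {c : Cv} {a : Pic} (h : -1 ≤ c.deg a) (H : Pos.{w} B.O (B.O⟦a - c.cl⟧)) :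
    Pos.{w} B.O (B.O⟦a⟧) :=
  Pos.iso (Iso.refl _) (B.e₂ c a)
    (pos_mid (B.hS c a) B.O (Pos.iso (Iso.refl _) (B.e₁ c a).symm H) (B.h1 c a h))

theorem van_add {c : Cv} {a : Pic} (h : c.deg a = -1) (H : Van.{w} B.O (B.O⟦a - c.cl⟧)) :
    Van.{w} B.O (B.O⟦a⟧) :=
  Van.iso (Iso.refl _) (B.e₂ c a)
    (van_mid (B.hS c a) B.O (Van.iso (Iso.refl _) (B.e₁ c a).symm H) (B.h0 c a h))

theorem van_sub {c : Cv} {a : Pic} (h : c.deg a = -1) (H : Van.{w} B.O (B.O⟦a⟧)) :
    Van.{w} B.O (B.O⟦a - c.cl⟧) :=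
  Van.iso (Iso.refl _) (B.e₁ c a)
    (van_left (B.hS c a) B.O (Van.iso (Iso.refl _) (B.e₂ c a).symm H) (B.h0 c a h))

/-- soundness of positive paths -/
theorem pos_of_path (l : List Cv) (a : Pic) (h : posPath l a = true) :
    Pos.{w} B.O (B.O⟦a⟧) := by
  induction l generalizing a with
  | nil =>
    have ha : a = 0 := of_decide_eq_true h
    subst ha
    exact Pos.iso (Iso.refl _) ((shiftFunctorZero C Pic).app B.O).symm B.hO
  | cons c l ih =>
    rw [posPath, Bool.and_eq_true, decide_eq_true_eq] at h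
    exact B.add h.1 (ih _ h.2)

/-- soundness of vanishing paths -/
theorem van_of_path (c₀ : Cv) (l : List (Bool × Cv)) (a : Pic)
    (h : vanPath c₀ l a = true) : Van.{w} B.O (B.O⟦a⟧) := by
  induction l generalizing a with
  | nil =>
    have ha : a = -c₀.cl := of_decide_eq_true h
    subst ha
    exact B.hc c₀
  | cons x l ih =>
    obtain ⟨b, c⟩ := x
    cases b
    · rw [vanPath, Bool.and_eq_true, decide_eq_true_eq] at h
      have h1 := B.van_sub h.1 (ih _ h.2)
      have h2 : a + c.cl - c.cl = a := add_sub_cancel_right a c.cl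
      exact Van.iso (Iso.refl _) (eqToIso (by rw [h2])) h1
    · rw [vanPath, Bool.and_eq_true, decide_eq_true_eq] at h
      exact B.van_add h.1 (ih _ h.2)

end KBase

end Orl.KL
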