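import Pool.Agent.Work.MP_f714fc_ag.Tw.Koszul

/-!
# The Koszul sequence of sections of two line bundles without common zeros
-/

open CategoryTheory Limits TopologicalSpace AlgebraicGeometry Opposite

attribute [-instance] CategoryTheory.catToReflQuiver

universe u

namespace Fdim.Coc

variable {X : Scheme.{u}} {ι : Type u} {U : ι → X.Opens}

theorem ap_neg' {A B : X.Modules} (φ : A ⟶ B) (V : X.Opens) (x : Γ(A, V)) :
    ap (-φ) V x = - ap φ V x := by
  have h1 : ap (-φ) V x + ap φ V x = 0 := by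
    rw [← ap_add, neg_add_cancel, ap_zero]
  exact eq_neg_of_add_eq_zero_left h1

/-- **Koszul sequence** of sections `s` of `g` and `t` of `h` without common zeros:
`0 → M(-g-h) → M(-g) ⊕ M(-h) → M → 0`. -/
theorem koszul2 {g h : Coc U} (hU : ⨆ i, U i = ⊤) (s : Sct g) (t : Sct h)
    (H : ∀ i, IsCoprime (s.c i) (t.c i)) (M : X.Modules) :
    ∃ S : ShortComplex X.Modules, S.ShortExact ∧
      Nonempty (S.X₁ ≅ (Coc.tw (g⁻¹ * h⁻¹)).obj M) ∧
      Nonempty (S.X₂ ≅ (Coc.tw g⁻¹).obj M ⊞ (Coc.tw h⁻¹).obj M) ∧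
      Nonempty (S.X₃ ≅ M) := by
  have hcov : IsCov U := ⟨hU⟩
  have e1 : h * (g⁻¹ * h⁻¹) = g⁻¹ := by
    rw [mul_comm g⁻¹, mul_inv_cancel_left]
  have e2 : g * (g⁻¹ * h⁻¹) = h⁻¹ := by rw [mul_inv_cancel_left]
  have e3 : g * g⁻¹ = 1 := mul_inv_cancel g
  have e4 : h * h⁻¹ = 1 := mul_inv_cancel h
  have H' : ∀ i (W : X.Opens) (hi : W ≤ U i), ∃ a b : Γ(X, W),
      a * s.v i hi + b * t.v i hi = 1 := by
    intro i W hi
    obtain ⟨a, b, hab⟩ := H i
    refine ⟨rO hi a, rO hi b, ?_⟩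
    have h1 := congrArg (rO hi) hab
    rw [map_add, map_mul, map_mul, map_one] at h1
    exact h1
  let f : (tw (g⁻¹ * h⁻¹)).obj M ⟶ (tw g⁻¹).obj M ⊞ (tw h⁻¹).obj M :=
    biprod.lift (t.mulTw e1 M) (-(s.mulTw e2 M))
  let p : (tw g⁻¹).obj M ⊞ (tw h⁻¹).obj M ⟶ (tw (1 : Coc U)).obj M :=
    biprod.desc (s.mulTw e3 M) (t.mulTw e4 M)
  have hf1 : ∀ (V : X.Opens) (y : Γ((tw (g⁻¹ * h⁻¹)).obj M, V)),
      ap biprod.fst V (ap f V y) = ap (t.mulTw e1 M) V y := by
    intro V y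
    rw [← ap_comp, biprod.lift_fst]
  have hf2 : ∀ (V : X.Opens) (y : Γ((tw (g⁻¹ * h⁻¹)).obj M, V)),
      ap biprod.snd V (ap f V y) = - ap (s.mulTw e2 M) V y := by
    intro V y
    rw [← ap_comp, biprod.lift_snd, ap_neg']
  have hp : ∀ (V : X.Opens) (x : Γ((tw g⁻¹).obj M ⊞ (tw h⁻¹).obj M, V)),
      ap p V x = ap (s.mulTw e3 M) V (ap biprod.fst V x) +
        ap (t.mulTw e4 M) V (ap biprod.snd V x) := by
    intro V x
    rw [← ap_comp, ← ap_comp, ← ap_add, ← biprod.desc_eq]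
  have hzero : f ≫ p = 0 := by
    refine hom_text fun V y i hi hi' => ?_
    rw [ap_comp, hp, hf1, hf2, map_neg, tev_add, tev_neg, Sct.tev_mulTw, Sct.tev_mulTw,
      Sct.tev_mulTw, Sct.tev_mulTw, ap_zero, tev_zero, smul_comm, add_neg_cancel]
  let S : ShortComplex X.Modules := ShortComplex.mk f p hzero
  have hmono : Mono f := by
    apply mono_of_injective
    intro V
    rw [injective_iff_map_eq_zero]
    intro y hy
    refine text fun i => ?_
    have h1 : t.v i (inf_le_right : V ⊓ U i ≤ U i) • tev y i inf_le_left inf_le_right = 0 := by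
      rw [← Sct.tev_mulTw t e1 M, ← hf1, hy, map_zero, tev_zero]
    have h2 : s.v i (inf_le_right : V ⊓ U i ≤ U i) • tev y i inf_le_left inf_le_right = 0 := by
      rw [← Sct.tev_mulTw s e2 M, ← neg_eq_zero, ← tev_neg, ← hf2, hy, map_zero, tev_zero]
    rw [tev_zero]
    obtain ⟨a, b, hab⟩ := H' i _ (inf_le_right : V ⊓ U i ≤ U i)
    rw [← one_smul Γ(X, V ⊓ U i) (tev y i inf_le_left inf_le_right), ← hab, add_smul, mul_smul,
      mul_smul, h1, h2, smul_zero, smul_zero, add_zero]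
  have hepi : Epi p := by
    apply epi_of_locally
    intro V z x hx
    obtain ⟨i, hxi⟩ : ∃ i, x ∈ U i := by
      have : x ∈ ⨆ i, U i := by rw [hU]; trivial
      exact Opens.mem_iSup.1 this
    refine ⟨V ⊓ U i, inf_le_left, ⟨hx, hxi⟩, ?_⟩
    have hi : V ⊓ U i ≤ U i := inf_le_right
    obtain ⟨a, b, hab⟩ := H' i _ hi
    obtain ⟨y, hy⟩ := tw_exists (g := g⁻¹) (M := M) i hi (a • tev z i inf_le_left hi)
    obtain ⟨y', hy'⟩ := tw_exists (g := h⁻¹) (M := M) i hi (b • tev z i inf_le_left hi)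
    refine ⟨ap biprod.inl _ y + ap biprod.inr _ y', ?_⟩
    rw [map_add, ← ap_comp, ← ap_comp, biprod.inl_desc, biprod.inr_desc]
    refine tw_ext i hi ?_
    rw [tev_add, Sct.tev_mulTw, Sct.tev_mulTw, hy, hy', smul_smul, smul_smul, ← add_smul,
      mul_comm, mul_comm (t.v i hi), hab, one_smul, tev_rs]
  have hexact : S.Exact := by
    apply exact_of_locally
    intro V z hz x hx
    obtain ⟨i, hxi⟩ : ∃ i, x ∈ U i := by
      have : x ∈ ⨆ i, U i := by rw [hU]; trivial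
      exact Opens.mem_iSup.1 this
    refine ⟨V ⊓ U i, inf_le_left, ⟨hx, hxi⟩, ?_⟩
    have hi : V ⊓ U i ≤ U i := inf_le_right
    have hz' : ap (s.mulTw e3 M) V (ap biprod.fst V z) +
        ap (t.mulTw e4 M) V (ap biprod.snd V z) = 0 := by
      rw [← hp]
      exact hz
    have hc : s.v i hi • tev (ap biprod.fst V z) i inf_le_left hi +
        t.v i hi • tev (ap biprod.snd V z) i inf_le_left hi = 0 := by
      rw [← Sct.tev_mulTw s e3 M, ← Sct.tev_mulTw t e4 M, ← tev_add, hz', tev_zero]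
    obtain ⟨m, hm1, hm2⟩ : ∃ m : Γ(M, V ⊓ U i),
        t.v i hi • m = tev (ap biprod.fst V z) i inf_le_left hi ∧
        - (s.v i hi • m) = tev (ap biprod.snd V z) i inf_le_left hi := by
      generalize tev (ap biprod.fst V z) i inf_le_left hi = x1 at hc
      generalize tev (ap biprod.snd V z) i inf_le_left hi = x2 at hc
      obtain ⟨a, b, hab⟩ := H' i _ hi
      have hc1 : t.v i hi • x2 = - (s.v i hi • x1) := by
        rw [add_comm] at hc
        exact eq_neg_of_add_eq_zero_left hc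
      have hc2 : s.v i hi • x1 = - (t.v i hi • x2) := eq_neg_of_add_eq_zero_left hc
      refine ⟨b • x1 - a • x2, ?_, ?_⟩
      · rw [smul_sub, smul_comm _ a, hc1, smul_neg, sub_neg_eq_add, smul_smul, smul_smul,
          ← add_smul, add_comm, mul_comm (t.v i hi), hab, one_smul]
      · rw [smul_sub, smul_comm _ b, hc2, smul_neg, neg_sub, sub_neg_eq_add, smul_smul, smul_smul,
          ← add_smul, mul_comm (s.v i hi), hab, one_smul]
    obtain ⟨y, hy⟩ := tw_exists (g := g⁻¹ * h⁻¹) (M := M) i hi m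
    refine ⟨y, ?_⟩
    apply biprod_sec_ext
    · change ap biprod.fst _ (ap f _ y) = _
      rw [hf1]
      refine tw_ext i hi ?_
      rw [Sct.tev_mulTw, hy, hm1]
      erw [ap_rs]
      rw [tev_rs]
    · change ap biprod.snd _ (ap f _ y) = _
      rw [hf2]
      refine tw_ext i hi ?_
      rw [tev_neg, Sct.tev_mulTw, hy, hm2]
      erw [ap_rs]
      rw [tev_rs]
  exact ⟨S, { exact := hexact, mono_f := hmono, epi_g := hepi }, ⟨Iso.refl _⟩,
    ⟨Iso.refl _⟩, ⟨(oneIsoApp rfl M).symm⟩⟩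

end Fdim.Coc
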