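import Mathlib

/-!
# The Picard lattice of the Chatelet surface over the splitting field

Coordinates: `s_u`, `l_1, …, l_4` (the components of the degenerate fibres which meet `s_u`) and
the fibre `f`.  `s_v = s_u + ∑ l_i - 2 f`, the second component of a degenerate fibre is `f - l_i`.
-/

namespace Orl.KL

/-- the Picard lattice -/
abbrev Pic : Type := Fin 6 → ℤ

/-- the ten curves -/
inductive Cv
  | su : Cv
  | sv : Cv
  | lu : Fin 4 → Cv
  | lv : Fin 4 → Cv
deriving DecidableEq, Fintype

/-- the class of a curve -/
def Cv.cl : Cv → Pic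
  | .su => ![1, 0, 0, 0, 0, 0]
  | .sv => ![1, 1, 1, 1, 1, -2]
  | .lu i => ![0, if i = 0 then 1 else 0, if i = 1 then 1 else 0, if i = 2 then 1 else 0,
      if i = 3 then 1 else 0, 0]
  | .lv i => ![0, if i = 0 then -1 else 0, if i = 1 then -1 else 0, if i = 2 then -1 else 0,
      if i = 3 then -1 else 0, 1]

/-- the intersection number with a curve -/
def Cv.deg : Cv → Pic → ℤ
  | .su, a => -2 * a 0 + a 1 + a 2 + a 3 + a 4 + a 5
  | .sv, a => a 5
  | .lu i, a => a 0 - a i.succ.castSucc
  | .lv i, a => a i.succ.castSucc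

/-- a class obtained from `0` by adding curves of degree at least `-1` -/
def posPath : List Cv → Pic → Bool
  | [], a => decide (a = 0)
  | c :: l, a => decide (-1 ≤ c.deg a) && posPath l (a - c.cl)

/-- a class obtained from `- cl c₀` by adding and subtracting curves of degree `-1` -/
def vanPath (c₀ : Cv) : List (Bool × Cv) → Pic → Bool
  | [], a => decide (a = -c₀.cl)
  | (true, c) :: l, a => decide (c.deg a = -1) && vanPath c₀ l (a - c.cl)
  | (false, c) :: l, a => decide (c.deg (a + c.cl) = -1) && vanPath c₀ l (a + c.cl)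

end Orl.KL
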