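import Pool.Agent.Work.MP_f714fc_ag.Tw.AmpleExt

/-!
# Rational functions on an integral scheme; cocycles from local generators
-/

open CategoryTheory Limits TopologicalSpace AlgebraicGeometry Opposite

attribute [-instance] CategoryTheory.catToReflQuiver

namespace Orl.KL

open Fdim

variable {Y : Scheme.{0}} [IsIntegral Y]

/-- the function field -/
abbrev FF (Y : Scheme.{0}) [IsIntegral Y] : Type := Y.functionField

/-- the section `s` over `Z` is the rational function `h` (no condition if `Z` is empty) -/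
def HasVal {Z : Y.Opens} (s : Γ(Y, Z)) (h : FF Y) : Prop :=
  ∀ _ : Nonempty Z, (Y.germToFunctionField Z).hom s = h

/-- the rational function `h` is regular on `Z` -/
def Reg (Z : Y.Opens) (h : FF Y) : Prop := ∃ s : Γ(Y, Z), HasVal s h

omit [IsIntegral Y] in
theorem subsingleton_of_not_nonempty {Z : Y.Opens} (h : ¬ Nonempty Z) : Subsingleton Γ(Y, Z) := by
  have h1 : Z = ⊥ := by
    rw [eq_bot_iff]
    intro x hx
    exact (h ⟨⟨x, hx⟩⟩).elim
  subst h1
  infer_instance

theorem HasVal.ext {Z : Y.Opens} {s t : Γ(Y, Z)} {h : FF Y} (hs : HasVal s h) (ht : HasVal t h) :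
    s = t := by
  by_cases hZ : Nonempty Z
  · exact Y.germToFunctionField_injective Z ((hs hZ).trans (ht hZ).symm)
  · have := subsingleton_of_not_nonempty hZ
    exact Subsingleton.elim _ _

theorem HasVal.val_eq {Z : Y.Opens} [Nonempty Z] {s : Γ(Y, Z)} {h h' : FF Y}
    (hs : HasVal s h) (hs' : HasVal s h') : h = h' :=
  (hs inferInstance).symm.trans (hs' inferInstance)

/-- the rational function of a section over a nonempty open subset -/
theorem hasVal_germ {Z : Y.Opens} [Nonempty Z] (s : Γ(Y, Z)) :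
    HasVal s ((Y.germToFunctionField Z).hom s) := fun _ => rfl

theorem germ_rO {Z Z' : Y.Opens} (h : Z' ≤ Z) (n : Nonempty Z) (n' : Nonempty Z') (s : Γ(Y, Z)) :
    (Y.germToFunctionField Z').hom (rO h s) = (Y.germToFunctionField Z).hom s :=
  Y.presheaf.germ_res_apply (homOfLE h) _ _ s

theorem HasVal.rO {Z Z' : Y.Opens} {s : Γ(Y, Z)} {f : FF Y} (hs : HasVal s f) (h : Z' ≤ Z) :
    HasVal (rO h s) f := by
  intro n'
  have n : Nonempty Z := ⟨⟨n'.some.1, h n'.some.2⟩⟩
  rw [germ_rO h n n' s]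
  exact hs n

theorem HasVal.of_rO {Z Z' : Y.Opens} {s : Γ(Y, Z)} {f : FF Y} (h : Z' ≤ Z) [n' : Nonempty Z']
    (hs : HasVal (Fdim.rO h s) f) : HasVal s f := by
  intro n
  rw [← germ_rO h n n' s]
  exact hs n'

theorem hasVal_zero {Z : Y.Opens} : HasVal (0 : Γ(Y, Z)) 0 := fun _ => map_zero _

theorem hasVal_one {Z : Y.Opens} : HasVal (1 : Γ(Y, Z)) 1 := fun _ => map_one _

theorem HasVal.add {Z : Y.Opens} {s t : Γ(Y, Z)} {f g : FF Y} (hs : HasVal s f)
    (ht : HasVal t g) : HasVal (s + t) (f + g) := fun n => by rw [map_add, hs n, ht n]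

theorem HasVal.neg {Z : Y.Opens} {s : Γ(Y, Z)} {f : FF Y} (hs : HasVal s f) :
    HasVal (-s) (-f) := fun n => by rw [map_neg, hs n]

theorem HasVal.sub {Z : Y.Opens} {s t : Γ(Y, Z)} {f g : FF Y} (hs : HasVal s f)
    (ht : HasVal t g) : HasVal (s - t) (f - g) := fun n => by rw [map_sub, hs n, ht n]

theorem HasVal.mul {Z : Y.Opens} {s t : Γ(Y, Z)} {f g : FF Y} (hs : HasVal s f)
    (ht : HasVal t g) : HasVal (s * t) (f * g) := fun n => by rw [map_mul, hs n, ht n]

theorem HasVal.pow {Z : Y.Opens} {s : Γ(Y, Z)} {f : FF Y} (hs : HasVal s f) (m : ℕ) :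
    HasVal (s ^ m) (f ^ m) := fun n => by rw [map_pow, hs n]

theorem reg_zero {Z : Y.Opens} : Reg Z (0 : FF Y) := ⟨0, hasVal_zero⟩

theorem reg_one {Z : Y.Opens} : Reg Z (1 : FF Y) := ⟨1, hasVal_one⟩

namespace Reg

variable {Z Z' : Y.Opens} {f g : FF Y}

theorem add (hf : Reg Z f) (hg : Reg Z g) : Reg Z (f + g) :=
  ⟨_, hf.choose_spec.add hg.choose_spec⟩

theorem neg (hf : Reg Z f) : Reg Z (-f) := ⟨_, hf.choose_spec.neg⟩

theorem sub (hf : Reg Z f) (hg : Reg Z g) : Reg Z (f - g) :=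
  ⟨_, hf.choose_spec.sub hg.choose_spec⟩

theorem mul (hf : Reg Z f) (hg : Reg Z g) : Reg Z (f * g) :=
  ⟨_, hf.choose_spec.mul hg.choose_spec⟩

theorem pow (hf : Reg Z f) (m : ℕ) : Reg Z (f ^ m) := ⟨_, hf.choose_spec.pow m⟩

theorem mono (hf : Reg Z f) (h : Z' ≤ Z) : Reg Z' f := ⟨_, hf.choose_spec.rO h⟩

end Reg

/-- the functions regular on `Z`, as a subring of the function field -/
def regSub (Z : Y.Opens) : Subring (FF Y) where
  carrier := {f | Reg Z f}
  mul_mem' := Reg.mul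
  one_mem' := reg_one
  add_mem' := Reg.add
  zero_mem' := reg_zero
  neg_mem' := Reg.neg

theorem mem_regSub {Z : Y.Opens} {f : FF Y} : f ∈ regSub Z ↔ Reg Z f := Iff.rfl

theorem regSub_mono {Z Z' : Y.Opens} (h : Z' ≤ Z) : regSub Z ≤ regSub Z' := fun _ hf => hf.mono h

theorem regSub_eq_range (Z : Y.Opens) [n : Nonempty Z] :
    regSub Z = (Y.germToFunctionField Z).hom.range := by
  ext f
  constructor
  · rintro ⟨s, hs⟩
    exact ⟨s, hs n⟩
  · rintro ⟨s, rfl⟩
    exact ⟨s, hasVal_germ s⟩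

/-- the section over `Z` of a rational function which is regular on `Z` -/
noncomputable def sec {Z : Y.Opens} {f : FF Y} (h : Reg Z f) : Γ(Y, Z) := h.choose

theorem hasVal_sec {Z : Y.Opens} {f : FF Y} (h : Reg Z f) : HasVal (sec h) f := h.choose_spec

theorem sec_eq {Z : Y.Opens} {f : FF Y} (h : Reg Z f) {s : Γ(Y, Z)} (hs : HasVal s f) :
    sec h = s := (hasVal_sec h).ext hs

theorem rO_sec {Z Z' : Y.Opens} {f : FF Y} (h : Reg Z f) (hle : Z' ≤ Z) :
    rO hle (sec h) = sec (h.mono hle) := ((hasVal_sec h).rO hle).ext (hasVal_sec _)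

/-- regular functions glue -/
theorem Reg.iSup {ι : Type*} {U : ι → Y.Opens} {f : FF Y} (h : ∀ i, Reg (U i) f) :
    Reg (⨆ i, U i) f := by
  obtain ⟨s, hs, -⟩ := TopCat.Sheaf.existsUnique_gluing' Y.sheaf U (⨆ i, U i)
    (fun i => homOfLE (le_iSup U i)) le_rfl (fun i => sec (h i)) (by
      intro i j
      change rO (inf_le_left : U i ⊓ U j ≤ U i) (sec (h i)) =
        rO (inf_le_right : U i ⊓ U j ≤ U j) (sec (h j))
      rw [rO_sec, rO_sec])
  refine ⟨s, fun n => ?_⟩
  obtain ⟨y, hy⟩ := n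
  obtain ⟨i, hi⟩ := Opens.mem_iSup.1 hy
  have ni : Nonempty (U i) := ⟨⟨y, hi⟩⟩
  have h1 : rO (le_iSup U i) s = sec (h i) := hs i
  have h2 : HasVal (rO (le_iSup U i) s) f := by
    rw [h1]
    exact hasVal_sec _
  exact h2.of_rO (le_iSup U i) ⟨y, hy⟩

theorem Reg.of_le_iSup {ι : Type*} {U : ι → Y.Opens} {Z : Y.Opens} {f : FF Y}
    (hZ : Z ≤ ⨆ i, U i) (h : ∀ i, Reg (U i) f) : Reg Z f := (Reg.iSup h).mono hZ

theorem Reg.sup {Z Z' : Y.Opens} {f : FF Y} (h : Reg Z f) (h' : Reg Z' f) :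
    Reg (Z ⊔ Z') f := by
  rw [sup_eq_iSup]
  refine Reg.iSup fun b => ?_
  cases b
  · exact h'
  · exact h

/-- a regular function with regular inverse is a unit -/
theorem isUnit_sec {Z : Y.Opens} {f : FF Y} (hf : f ≠ 0) (h : Reg Z f) (h' : Reg Z f⁻¹) :
    IsUnit (sec h) := by
  refine IsUnit.of_mul_eq_one (sec h') ?_
  refine ((hasVal_sec h).mul (hasVal_sec h')).ext ?_
  rw [mul_inv_cancel₀ hf]
  exact hasVal_one

/-- the inverse of a function on its non-vanishing locus is regular -/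
theorem reg_inv_basicOpen {Z : Y.Opens} {s : Γ(Y, Z)} {f : FF Y} (hs : HasVal s f) :
    Reg (Y.basicOpen s) f⁻¹ := by
  have h1 : IsUnit (rO (Y.basicOpen_le s) s) :=
    RingedSpace.isUnit_res_basicOpen Y.toRingedSpace s
  obtain ⟨u, hu⟩ := h1
  refine ⟨((u⁻¹ : (Γ(Y, Y.basicOpen s))ˣ) : Γ(Y, Y.basicOpen s)), fun n => ?_⟩
  have h2 := (hs.rO (Y.basicOpen_le s)) n
  rw [← hu] at h2
  have h3 := congrArg (Y.germToFunctionField (Y.basicOpen s)).hom (Units.mul_inv u)
  rw [map_mul, map_one, h2] at h3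
  exact eq_inv_of_mul_eq_one_right h3

/-- a function with regular inverse does not vanish anywhere -/
theorem le_basicOpen_of_reg {Z : Y.Opens} {s : Γ(Y, Z)} {f : FF Y} (hs : HasVal s f)
    (hf : f ≠ 0) {W : Y.Opens} (hW : W ≤ Z) (h : Reg W f⁻¹) : W ≤ Y.basicOpen s := by
  have h1 : IsUnit (rO hW s) := by
    have h2 := isUnit_sec hf (Reg.mono (Z := Z) ⟨s, hs⟩ hW) h
    rwa [sec_eq _ (hs.rO hW)] at h2
  have h3 : Y.basicOpen (rO hW s) = W := Y.basicOpen_of_isUnit h1
  rw [← h3]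
  have h4 : Y.basicOpen (rO hW s) = W ⊓ Y.basicOpen s := Y.basicOpen_res s (homOfLE hW).op
  rw [h4]
  exact inf_le_right

/-! ### Cocycles from local generators -/

/-- the local generators `g i` on `U i` define the same divisor on overlaps -/
def IsGen {ι : Type} (U : ι → Y.Opens) (g : ι → (FF Y)ˣ) : Prop :=
  ∀ i j, Reg (U i ⊓ U j) ((g i / g j : (FF Y)ˣ) : FF Y)

namespace IsGen

variable {ι : Type} {U : ι → Y.Opens} {g h : ι → (FF Y)ˣ}

theorem one : IsGen U (1 : ι → (FF Y)ˣ) := fun i j => by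
  simpa using (reg_one : Reg (U i ⊓ U j) (1 : FF Y))

theorem mul (hg : IsGen U g) (hh : IsGen U h) : IsGen U (g * h) := fun i j => by
  have h1 : ((g * h) i / (g * h) j : (FF Y)ˣ) = (g i / g j) * (h i / h j) := by
    simp only [Pi.mul_apply]
    exact mul_div_mul_comm _ _ _ _
  rw [h1, Units.val_mul]
  exact (hg i j).mul (hh i j)

theorem inv (hg : IsGen U g) : IsGen U g⁻¹ := fun i j => by
  have h1 : (g⁻¹ i / g⁻¹ j : (FF Y)ˣ) = g j / g i := by
    simp only [Pi.inv_apply]
    rw [div_inv_eq_mul, inv_mul_eq_div]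
  rw [h1]
  exact (hg j i).mono (by rw [inf_comm])

end IsGen

/-- the families of local generators -/
def genSub {ι : Type} (U : ι → Y.Opens) : Subgroup (ι → (FF Y)ˣ) where
  carrier := {g | IsGen U g}
  mul_mem' := IsGen.mul
  one_mem' := IsGen.one
  inv_mem' := IsGen.inv

theorem mem_genSub {ι : Type} {U : ι → Y.Opens} {g : ι → (FF Y)ˣ} :
    g ∈ genSub U ↔ IsGen U g := Iff.rfl

/-- the cocycle of a family of local generators -/
noncomputable def cocOf {ι : Type} {U : ι → Y.Opens} (g : ι → (FF Y)ˣ) (hg : IsGen U g) :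
    Coc U :=
  ⟨fun i j =>
    { val := sec (hg i j)
      inv := sec (((hg j i).mono (by rw [inf_comm]) :
        Reg (U i ⊓ U j) ((g j / g i : (FF Y)ˣ) : FF Y)))
      val_inv := by
        refine ((hasVal_sec _).mul (hasVal_sec _)).ext ?_
        rw [← Units.val_mul, div_mul_div_cancel, div_self', Units.val_one]
        exact hasVal_one
      inv_val := by
        refine ((hasVal_sec _).mul (hasVal_sec _)).ext ?_
        rw [← Units.val_mul, div_mul_div_cancel, div_self', Units.val_one]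
        exact hasVal_one }, by
    intro i j k
    refine (((hasVal_sec _).rO _).mul ((hasVal_sec _).rO _)).ext ?_
    rw [← Units.val_mul, div_mul_div_cancel]
    exact (hasVal_sec _).rO _⟩

theorem hasVal_cocOf {ι : Type} {U : ι → Y.Opens} {g : ι → (FF Y)ˣ} (hg : IsGen U g) (i j : ι)
    {W : Y.Opens} (hi : W ≤ U i) (hj : W ≤ U j) :
    HasVal ((cocOf g hg).v i j hi hj) ((g i / g j : (FF Y)ˣ) : FF Y) :=
  (hasVal_sec _).rO _

/-- cocycles are equal if their values are -/
theorem coc_ext {X : Scheme.{0}} {ι : Type} {U : ι → X.Opens} {g h : Coc U}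
    (H : ∀ i j, g.v i j (inf_le_left : U i ⊓ U j ≤ U i) inf_le_right =
      h.v i j inf_le_left inf_le_right) : g = h := by
  apply Subtype.ext
  funext i j
  apply Units.ext
  have h1 := H i j
  simpa [Coc.v] using h1

/-- the cocycles of families of local generators, as a homomorphism of groups -/
noncomputable def cocHom {ι : Type} (U : ι → Y.Opens) : genSub U →* Coc U where
  toFun g := cocOf g.1 g.2
  map_one' := coc_ext fun i j => by
    refine (hasVal_cocOf _ i j _ _).ext ?_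
    rw [Coc.v_one]
    simpa using (hasVal_one : HasVal (1 : Γ(Y, U i ⊓ U j)) 1)
  map_mul' g h := coc_ext fun i j => by
    refine (hasVal_cocOf _ i j _ _).ext ?_
    rw [Coc.v_mul]
    have h1 := (hasVal_cocOf g.2 i j (inf_le_left : U i ⊓ U j ≤ U i) inf_le_right).mul
      (hasVal_cocOf h.2 i j (inf_le_left : U i ⊓ U j ≤ U i) inf_le_right)
    have h2 : (((g * h : genSub U) : ι → (FF Y)ˣ) i / ((g * h : genSub U) : ι → (FF Y)ˣ) j :
        (FF Y)ˣ) = (g.1 i / g.1 j) * (h.1 i / h.1 j) := mul_div_mul_comm _ _ _ _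
    rw [h2, Units.val_mul]
    exact h1

/-- the section of the line bundle with local generators `g i` given by the rational function `f`,
where all `f * g i` are regular -/
noncomputable def sctOf {ι : Type} {U : ι → Y.Opens} {g : ι → (FF Y)ˣ} (hg : IsGen U g)
    (f : FF Y) (hf : ∀ i, Reg (U i) (f * (g i : FF Y))) : Coc.Sct (cocOf g hg) where
  c i := sec (hf i)
  comp i j W hi hj := by
    refine ((hasVal_sec _).rO hi).ext ?_
    have h1 := (hasVal_cocOf hg i j hi hj).mul ((hasVal_sec (hf j)).rO hj)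
    have h2 : ((g i / g j : (FF Y)ˣ) : FF Y) * (f * (g j : FF Y)) = f * (g i : FF Y) := by
      rw [mul_left_comm, ← Units.val_mul, div_mul_cancel]
    rwa [h2] at h1

theorem hasVal_sctOf {ι : Type} {U : ι → Y.Opens} {g : ι → (FF Y)ˣ} (hg : IsGen U g)
    (f : FF Y) (hf : ∀ i, Reg (U i) (f * (g i : FF Y))) (i : ι) :
    HasVal ((sctOf hg f hf).c i) (f * (g i : FF Y)) := hasVal_sec _

end Orl.KL
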