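import Pool.Agent.Work.MP_a6e60d_ag.KL.Base

/-!
# The two collections of line bundles and the certificates of their vanishing
-/

open CategoryTheory CategoryTheory.Abelian CategoryTheory.Limits

attribute [-instance] CategoryTheory.catToReflQuiver

universe w v u

namespace Orl.KL

/-- certificates of the vanishing of higher cohomology, respectively of all cohomology -/
inductive Cert
  | pos : List Cv → Cert
  | van : Cv → List (Bool × Cv) → Cert

/-- the check of a certificate -/
def Cert.check : Cert → Pic → Bool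
  | .pos l, a => posPath l a
  | .van c l, a => vanPath c l a

/-- vanishing of all cohomology is claimed -/
def Cert.isVan : Cert → Bool
  | .pos _ => false
  | .van _ _ => true

/-- the tilting bundle over the quadratic field: `0, l_1, l_2, l_3, l_4, f, s, s + f` -/
def TF : Fin 8 → Pic :=
  ![![0, 0, 0, 0, 0, 0],
    ![0, 1, 0, 0, 0, 0],
    ![0, 0, 1, 0, 0, 0],
    ![0, 0, 0, 1, 0, 0],
    ![0, 0, 0, 0, 1, 0],
    ![0, 0, 0, 0, 0, 1],
    ![1, 1, 1, 1, 1, 0],
    ![1, 1, 1, 1, 1, 1]]

/-- certificates for the differences of `TF` -/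
def TFCert : Fin 8 → Fin 8 → Cert :=
  ![![.pos [],
      .pos [.lu 0],
      .pos [.lu 1],
      .pos [.lu 2],
      .pos [.lu 3],
      .pos [.lu 0, .lv 0],
      .pos [.su, .lu 0, .lu 1, .lu 2, .lu 3],
      .pos [.su, .lu 0, .lu 0, .lv 0, .lu 1, .lu 2, .lu 3]],
    ![.van (.lu 0) [],
      .pos [],
      .van (.lv 1) [(true, .lv 0)],
      .van (.lv 2) [(true, .lv 0)],
      .van (.lv 3) [(true, .lv 0)],
      .pos [.lv 0],
      .pos [.su, .lu 1, .lu 2, .lu 3],
      .pos [.su, .lu 0, .lv 0, .lu 1, .lu 2, .lu 3]],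
    ![.van (.lu 1) [],
      .van (.lu 1) [(true, .lu 0)],
      .pos [],
      .van (.lv 2) [(true, .lv 1)],
      .van (.lv 3) [(true, .lv 1)],
      .pos [.lv 1],
      .pos [.su, .lu 0, .lu 2, .lu 3],
      .pos [.su, .lu 0, .lu 0, .lv 0, .lu 2, .lu 3]],
    ![.van (.lu 2) [],
      .van (.lu 2) [(true, .lu 0)],
      .van (.lu 2) [(true, .lu 1)],
      .pos [],
      .van (.lv 3) [(true, .lv 2)],
      .pos [.lv 2],
      .pos [.su, .lu 0, .lu 1, .lu 3],
      .pos [.su, .lu 0, .lu 0, .lv 0, .lu 1, .lu 3]],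
    ![.van (.lu 3) [],
      .van (.lu 3) [(true, .lu 0)],
      .van (.lu 3) [(true, .lu 1)],
      .van (.lu 3) [(true, .lu 2)],
      .pos [],
      .pos [.lv 3],
      .pos [.su, .lu 0, .lu 1, .lu 2],
      .pos [.su, .lu 0, .lu 0, .lv 0, .lu 1, .lu 2]],
    ![.van (.lv 0) [(false, .lu 0)],
      .van (.lv 0) [],
      .van (.lv 1) [],
      .van (.lv 2) [],
      .van (.lv 3) [],
      .pos [],
      .pos [.sv, .lu 0, .lv 0],
      .pos [.su, .lu 0, .lu 1, .lu 2, .lu 3]],
    ![.van (.lv 0) [(false, .lu 0), (false, .lv 0), (false, .sv), (false, .lu 0)],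
      .van (.lv 0) [(false, .lv 0), (false, .sv), (false, .lu 0)],
      .van (.lv 1) [(false, .lu 0), (false, .lv 0), (false, .sv)],
      .van (.lv 2) [(false, .lu 0), (false, .lv 0), (false, .sv)],
      .van (.lv 3) [(false, .lu 0), (false, .lv 0), (false, .sv)],
      .van (.lv 0) [(false, .sv), (false, .lu 0)],
      .pos [],
      .pos [.lu 0, .lv 0]],
    ![.van (.lv 0) [(false, .lu 0), (false, .lv 0), (false, .lu 0), (false, .lv 0), (false, .sv), (false, .lu 0)],
      .van (.lv 0) [(false, .lv 0), (false, .lu 0), (false, .lv 0), (false, .sv), (false, .lu 0)],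
      .van (.lv 1) [(false, .lu 0), (false, .lv 0), (false, .lu 0), (false, .lv 0), (false, .sv)],
      .van (.lv 2) [(false, .lu 0), (false, .lv 0), (false, .lu 0), (false, .lv 0), (false, .sv)],
      .van (.lv 3) [(false, .lu 0), (false, .lv 0), (false, .lu 0), (false, .lv 0), (false, .sv)],
      .van (.lv 0) [(false, .lu 0), (false, .lv 0), (false, .sv), (false, .lu 0)],
      .van (.lv 0) [(false, .lu 0)],
      .pos []]]

/-- the tilting bundle over the cubic field -/
def TL : Fin 8 → Pic :=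
  ![![0, 0, 0, 0, 0, 0],
    ![1, 0, 1, 0, 0, 0],
    ![1, 1, 1, 0, 1, -1],
    ![1, 1, 1, 0, 0, 0],
    ![1, 0, 1, 0, 1, 0],
    ![2, 1, 1, 0, 1, 0],
    ![2, 1, 2, 1, 1, -1],
    ![2, 1, 2, 0, 1, 0]]

/-- certificates for the differences of `TL` -/
def TLCert : Fin 8 → Fin 8 → Cert :=
  ![![.pos [],
      .pos [.su, .lu 1],
      .pos [.sv, .lv 2],
      .pos [.su, .lu 0, .lu 1],
      .pos [.su, .lu 1, .lu 3],
      .pos [.su, .su, .lu 0, .lu 1, .lu 3],
      .pos [.su, .sv, .lu 0, .lv 0, .lu 1],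
      .pos [.su, .sv, .lu 0, .lv 0, .lu 1, .lv 2]],
    ![.van (.lu 1) [(false, .su)],
      .pos [],
      .van (.lv 3) [(true, .lu 0)],
      .pos [.lu 0],
      .pos [.lu 3],
      .pos [.su, .lu 0, .lu 3],
      .pos [.sv, .lu 0, .lv 0],
      .pos [.su, .lu 0, .lu 1, .lu 3]],
    ![.van (.lv 2) [(false, .sv)],
      .van (.lu 3) [(true, .lv 0)],
      .pos [],
      .pos [.lv 3],
      .pos [.lv 0],
      .pos [.su, .lu 0, .lv 0],
      .pos [.su, .lu 1, .lu 2],
      .pos [.su, .lu 0, .lv 0, .lu 1]],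
    ![.van (.lu 1) [(false, .lu 0), (false, .su)],
      .van (.lu 0) [],
      .van (.lv 3) [],
      .pos [],
      .van (.lv 3) [(true, .lv 0)],
      .pos [.su, .lu 3],
      .pos [.sv, .lv 0],
      .pos [.su, .lu 1, .lu 3]],
    ![.van (.lv 2) [(false, .lv 0), (false, .sv)],
      .van (.lu 3) [],
      .van (.lv 0) [],
      .van (.lu 3) [(true, .lu 0)],
      .pos [],
      .pos [.su, .lu 0],
      .pos [.sv, .lv 3],
      .pos [.su, .lu 0, .lu 1]],
    ![.van (.lv 2) [(false, .su), (false, .lu 0), (false, .lv 0), (false, .sv)],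
      .van (.lu 3) [(false, .lu 0), (false, .su)],
      .van (.lv 0) [(false, .su), (false, .lu 0)],
      .van (.lu 3) [(false, .su)],
      .van (.lu 0) [(false, .su)],
      .pos [],
      .van (.lv 2) [(true, .lu 1)],
      .pos [.lu 1]],
    ![.van (.lu 1) [(false, .sv), (false, .lv 0), (false, .lu 0), (false, .su)],
      .van (.lv 0) [(false, .sv), (false, .lu 0)],
      .van (.lv 3) [(false, .lv 0), (false, .sv)],
      .van (.lv 0) [(false, .sv)],
      .van (.lv 3) [(false, .sv)],
      .van (.lu 2) [(true, .lv 1)],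
      .pos [],
      .pos [.lv 2]],
    ![.van (.lv 2) [(false, .lu 1), (false, .su), (false, .lu 0), (false, .lv 0), (false, .sv)],
      .van (.lv 2) [(false, .lu 0), (false, .lv 0), (false, .sv)],
      .van (.lu 1) [(false, .lv 0), (false, .lu 0), (false, .su)],
      .van (.lv 2) [(false, .lv 0), (false, .sv)],
      .van (.lu 1) [(false, .lu 0), (false, .su)],
      .van (.lu 1) [],
      .van (.lv 2) [],
      .pos []]]

theorem TF_check : ∀ i j : Fin 8, (TFCert i j).check (TF j - TF i) = true := by decide +kernel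

theorem TL_check : ∀ i j : Fin 8, (TLCert i j).check (TL j - TL i) = true := by decide +kernel

variable {C : Type u} [Category.{v} C] [Abelian C] [HasExt.{w} C] [HasShift C Pic]
  [∀ a : Pic, (shiftFunctor C a).Additive]

/-- twists are equivalences on Ext -/
theorem ext_shift (a : Pic) {A B : C} {p : ℕ} (h : Subsingleton (Ext.{w} A B p)) :
    Subsingleton (Ext.{w} (A⟦a⟧) (B⟦a⟧) p) :=
  (Fdim.extAddEquiv (shiftFunctor C a) (Fdim.epiDom_of_isEquivalence _) A B
    p).symm.toEquiv.subsingleton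

theorem ext_diff (O : C) (a b : Pic) {p : ℕ} (h : Subsingleton (Ext.{w} O (O⟦b - a⟧) p)) :
    Subsingleton (Ext.{w} (O⟦a⟧) (O⟦b⟧) p) :=
  ext_iso (Iso.refl _) ((shiftFunctorAdd' C (b - a) a b (sub_add_cancel b a)).app O).symm
    (ext_shift a h)

namespace KBase

variable (B : KBase.{w} C)

omit [∀ a : Pic, (shiftFunctor C a).Additive] in
theorem pos_of_cert (c : Cert) (a : Pic) (h : c.check a = true) : Pos.{w} B.O (B.O⟦a⟧) := by
  cases c with
  | pos l => exact B.pos_of_path l a h
  | van c l => exact (B.van_of_path c l a h).pos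

omit [∀ a : Pic, (shiftFunctor C a).Additive] in
theorem van_of_cert (c : Cert) (a : Pic) (h : c.check a = true) (hv : c.isVan = true) :
    Van.{w} B.O (B.O⟦a⟧) := by
  cases c with
  | pos l => exact absurd (show (false = true) from hv) (by decide)
  | van c l => exact B.van_of_path c l a h

/-- the collection over the quadratic field is strong -/
theorem pos_TF (i j : Fin 8) : Pos.{w} (B.O⟦TF i⟧) (B.O⟦TF j⟧) := fun p hp =>
  ext_diff B.O _ _ (B.pos_of_cert _ _ (TF_check i j) p hp)

theorem van_TF (i j : Fin 8) (h : (TFCert i j).isVan = true) :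
    Van.{w} (B.O⟦TF i⟧) (B.O⟦TF j⟧) := fun p =>
  ext_diff B.O _ _ (B.van_of_cert _ _ (TF_check i j) h p)

/-- the collection over the cubic field is strong -/
theorem pos_TL (i j : Fin 8) : Pos.{w} (B.O⟦TL i⟧) (B.O⟦TL j⟧) := fun p hp =>
  ext_diff B.O _ _ (B.pos_of_cert _ _ (TL_check i j) p hp)

theorem van_TL (i j : Fin 8) (h : (TLCert i j).isVan = true) :
    Van.{w} (B.O⟦TL i⟧) (B.O⟦TL j⟧) := fun p =>
  ext_diff B.O _ _ (B.van_of_cert _ _ (TL_check i j) h p)

end KBase

/-- backward Homs vanish -/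
theorem TF_isVan : ∀ i j : Fin 8, j < i → (TFCert i j).isVan = true := by decide +kernel

theorem TL_isVan : ∀ i j : Fin 8, j < i → (TLCert i j).isVan = true := by decide +kernel

end Orl.KL
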